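import Mathlib

set_option autoImplicit false

/-! Magic numbers over two letters (MP_c3e474_lc): the top range.
States `0, ..., n-1`. Letter `a`: shift `i -> i+1` (state `n-1` is dropped). Letter `b`: shift, the last state
`n-1` also stays, and `0` is inserted when the set contains `0`, `n-1` or a fertile state `i` (`f i = true`). -/

namespace Pool.Agent.W213.MG

/-- letter a -/
def A (n : ℕ) (S : Finset ℕ) : Finset ℕ := (S.image (fun i => i + 1)).filter (fun j => j < n)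

/-- letter b -/
def B (n : ℕ) (f : ℕ → Bool) (S : Finset ℕ) : Finset ℕ :=
  A n S ∪ (if n - 1 ∈ S then {n - 1} else ∅) ∪
    (if ∃ i ∈ S, i = 0 ∨ i = n - 1 ∨ f i = true then {0} else ∅)

theorem mem_A (n : ℕ) (S : Finset ℕ) (j : ℕ) : j ∈ A n S ↔ (j < n ∧ ∃ i ∈ S, i + 1 = j) := by
  unfold A
  simp only [Finset.mem_filter, Finset.mem_image]
  tauto

theorem mem_B (n : ℕ) (f : ℕ → Bool) (S : Finset ℕ) (j : ℕ) :
    j ∈ B n f S ↔ ((j < n ∧ ∃ i ∈ S, i + 1 = j) ∨ (j = n - 1 ∧ n - 1 ∈ S) ∨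
      (j = 0 ∧ ∃ i ∈ S, i = 0 ∨ i = n - 1 ∨ f i = true)) := by
  have e1 : (j ∈ (if n - 1 ∈ S then ({n - 1} : Finset ℕ) else ∅)) ↔ (j = n - 1 ∧ n - 1 ∈ S) := by
    split_ifs with h
    · rw [Finset.mem_singleton]; exact ⟨fun e => ⟨e, h⟩, fun e => e.1⟩
    · exact ⟨fun e => absurd e (Finset.notMem_empty _), fun e => absurd e.2 h⟩
  have e2 : (j ∈ (if ∃ i ∈ S, i = 0 ∨ i = n - 1 ∨ f i = true then ({0} : Finset ℕ) else ∅)) ↔
      (j = 0 ∧ ∃ i ∈ S, i = 0 ∨ i = n - 1 ∨ f i = true) := by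
    split_ifs with h
    · rw [Finset.mem_singleton]; exact ⟨fun e => ⟨e, h⟩, fun e => e.1⟩
    · exact ⟨fun e => absurd e (Finset.notMem_empty _), fun e => absurd e.2 h⟩
  unfold B
  rw [Finset.mem_union, Finset.mem_union, mem_A, e1, e2, or_assoc]

/-- sets reachable from `{0}` -/
inductive Reach (n : ℕ) (f : ℕ → Bool) : Finset ℕ → Prop
  | start : Reach n f {0}
  | a (S : Finset ℕ) : Reach n f S → Reach n f (A n S)
  | b (S : Finset ℕ) : Reach n f S → Reach n f (B n f S)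

/-- the explicit description of the reachable subsets of `{0,..,n-1}` -/
def Good (n : ℕ) (f : ℕ → Bool) (S : Finset ℕ) : Prop :=
  0 ∉ S ∨ n - 1 ∈ S ∨ ∃ k, (∀ i, i ≤ k → i ∈ S) ∧ k + 1 ∉ S ∧
    ((∀ x ∈ S, x ≤ k) ∨ ∃ x ∈ S, k + 2 ≤ x ∧ f (x - k - 1) = true)

/-- number of non-fertile states among `1..r` -/
def rho (f : ℕ → Bool) (r : ℕ) : ℕ := ((Finset.Icc 1 r).filter (fun y => f y = false)).card

/-- number of unreachable sets -/
def U (n : ℕ) (f : ℕ → Bool) : ℕ := ∑ r ∈ Finset.range (n - 2), (2 ^ rho f r - 1)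

/-- the automaton -/
def M (n : ℕ) (f : ℕ → Bool) : NFA (Fin 2) (Fin n) where
  step i x := if x = 0 then {j | j.val = i.val + 1} else
    {j | j.val = i.val + 1 ∨ (i.val = n - 1 ∧ j.val = n - 1) ∨
      (j.val = 0 ∧ (i.val = 0 ∨ i.val = n - 1 ∨ f i.val = true))}
  start := {j | j.val = 0}
  accept := {j | j.val = n - 1}

/-- RCH -/
def RCH : Prop := ∀ (n : ℕ) (f : ℕ → Bool), 3 ≤ n → ∀ S : Finset ℕ,
  Reach n f S ↔ (S ⊆ Finset.range n ∧ Good n f S)

open Classical in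
/-- CNT: the number of good subsets is `2^n - U n f` -/
def CNT : Prop := ∀ (n : ℕ) (f : ℕ → Bool), 3 ≤ n →
  ((Finset.range n).powerset.filter (fun S => Good n f S)).card + U n f = 2 ^ n

/-- ARI: every `u <= 2^(n/2) - n/2 - 2` is some `U n f` -/
def ARI : Prop := ∀ n u : ℕ, 4 ≤ n → u + n / 2 + 2 ≤ 2 ^ (n / 2) → ∃ f : ℕ → Bool, U n f = u

/-- QUO: left quotients of the language correspond to the reachable sets -/
def QUO : Prop := ∀ (n : ℕ) (f : ℕ → Bool) (R : Finset (Finset ℕ)), 2 ≤ n →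
  (∀ S, S ∈ R ↔ Reach n f S) →
  Nat.card (Set.range (fun u : List (Fin 2) =>
    ({w : List (Fin 2) | u ++ w ∈ (M n f).accepts} : Set (List (Fin 2))))) = R.card

/-- MIN: the automaton is minimal -/
def MIN : Prop := ∀ (n : ℕ) (f : ℕ → Bool), 2 ≤ n →
  ∀ m : ℕ, m < n → ∀ N : NFA (Fin 2) (Fin m),
    (∃ q : Fin m, N.start = {q}) → N.accepts ≠ (M n f).accepts

end Pool.Agent.W213.MG
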